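import Mathlib
import Pool.Agent.N675.FM.Top

/-!
Values of the Möbius function at affine functions of several variables with FIXED constants, at all
but few scales: correlations with arbitrary exponents, value patterns.
-/

namespace Pool.Agent.Results.MP_3e612f_nt.FixedShiftsMobius

open Finset

/-- The Möbius function of `|m|` (`0` at `m = 0`). -/
noncomputable def mob (m : ℤ) : ℝ := (ArithmeticFunction.moebius m.natAbs : ℝ)

/-- The affine function `φ(y) + b`. -/
def aff {n : ℕ} (φ : Fin n → ℤ) (b : ℤ) (y : Fin n → ℤ) : ℤ := ∑ s, φ s * y s + b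

/-- The class of the form `φ i₀` in `E`: the `i` in `E` such that `φ i` is parallel (proportional)
to `φ i₀`. -/
def cls {k n : ℕ} (φ : Fin k → Fin n → ℤ) (E : Finset (Fin k)) (i₀ : Fin k) : Finset (Fin k) :=
  E.filter fun i => ∀ s s', φ i s * φ i₀ s' = φ i s' * φ i₀ s

/-- `φ_i + b_i` and `φ_j + b_j` are not proportional as affine functions. -/
def NotProp {k n : ℕ} (φ : Fin k → Fin n → ℤ) (b : Fin k → ℤ) (i j : Fin k) : Prop :=
  (∃ s s', φ i s * φ j s' ≠ φ i s' * φ j s) ∨ ∃ s, φ i s * b j ≠ φ j s * b i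

/-- Some class in `E` has an odd number of elements, or it has exactly two elements and the two
affine functions are not proportional. -/
def Good {k n : ℕ} (φ : Fin k → Fin n → ℤ) (b : Fin k → ℤ) (E : Finset (Fin k)) : Prop :=
  ∃ i₀ ∈ E, Odd (cls φ E i₀).card ∨
    ((cls φ E i₀).card = 2 ∧ ∃ i ∈ cls φ E i₀, NotProp φ b i i₀)

/-- The box `∏ (u s, u s + B s]` of integer vectors. -/
noncomputable def box {n : ℕ} (u : Fin n → ℤ) (B : Fin n → ℕ) : Finset (Fin n → ℤ) :=
  Fintype.piFinset fun s => Ioc (u s) (u s + B s)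

/-- The boxes of the scale `N / 2^i`: all sides lie between `N / (R 2^i)` and `R N / 2^i`, and
`|u s| ≤ R N / 2^i`. -/
def OfScale {n : ℕ} (R N i : ℕ) (u : Fin n → ℤ) (B : Fin n → ℕ) : Prop :=
  ∀ s, 2 ^ i * |u s| ≤ (R : ℤ) * N ∧ N ≤ R * 2 ^ i * B s ∧ 2 ^ i * B s ≤ R * N

open Classical in
/-- The exceptional scales `1 ≤ i ≤ J` for the correlations with the exponents `e j`: the sum over
some box of the scale `N / 2^i` is larger than `ε` times the size of the box. -/
noncomputable def excCorr {k n : ℕ} (φ : Fin k → Fin n → ℤ) (b : Fin k → ℤ) (e : Fin k → ℕ)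
    (R : ℕ) (ε : ℝ) (J N : ℕ) : Finset ℕ :=
  (Icc 1 J).filter fun i => ∃ (u : Fin n → ℤ) (B : Fin n → ℕ), OfScale R N i u B ∧
    ε * ∏ s, (B s : ℝ) < |∑ y ∈ box u B, ∏ j, mob (aff (φ j) (b j) y) ^ e j|

open Classical in
/-- The exceptional scales `1 ≤ i ≤ J` for the value patterns `v : {1, …, k} → {-1, 0, 1}`: for
some box of the scale `N / 2^i` and some `v`, `2^m` times the number of the `y` with the values `v`
(`m` the number of the nonzero `v_j`) and the number of the `y` with the same zeros differ by more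
than `ε` times the size of the box. -/
noncomputable def excPat {k n : ℕ} (φ : Fin k → Fin n → ℤ) (b : Fin k → ℤ) (R : ℕ) (ε : ℝ)
    (J N : ℕ) : Finset ℕ :=
  (Icc 1 J).filter fun i => ∃ (u : Fin n → ℤ) (B : Fin n → ℕ) (v : Fin k → ℤ),
    OfScale R N i u B ∧ (∀ j, v j = -1 ∨ v j = 0 ∨ v j = 1) ∧
    ε * ∏ s, (B s : ℝ) < |2 ^ (univ.filter fun j => v j ≠ 0).card *
      (((box u B).filter fun y => ∀ j, mob (aff (φ j) (b j) y) = v j).card : ℝ)
      - ((box u B).filter fun y => ∀ j, (mob (aff (φ j) (b j) y)) ^ 2 = (v j : ℝ) ^ 2).card|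

/-- Let `φ_j + b_j`, `j < k`, be integral affine functions in `n` variables, `φ_j ≠ 0`. (1) If the
set of the `j` with odd exponent `e j` is good, the correlations are small at all but few scales.
(2) If no two of the `k` affine functions are proportional and no class has more than three
elements, the value patterns have the expected frequencies at all but few scales. Few: the sum of
`1 / i` over the exceptional scales is at most `C`, where `C` does not depend on `J` and `N`. -/
theorem result (k n : ℕ) (φ : Fin k → Fin n → ℤ) (b : Fin k → ℤ) (hφ : ∀ j, φ j ≠ 0) :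
    (∀ e : Fin k → ℕ, Good φ b (univ.filter fun j => Odd (e j)) →
      ∀ (R : ℕ) (ε : ℝ), 0 < ε → ∃ C : ℝ, ∀ J : ℕ, ∃ N₀ : ℕ, ∀ N : ℕ, N₀ ≤ N →
      ∑ i ∈ excCorr φ b e R ε J N, 1 / (i : ℝ) ≤ C) ∧
    ((∀ i j, i ≠ j → NotProp φ b i j) → (∀ i₀, (cls φ univ i₀).card ≤ 3) →
      ∀ (R : ℕ) (ε : ℝ), 0 < ε → ∃ C : ℝ, ∀ J : ℕ, ∃ N₀ : ℕ, ∀ N : ℕ, N₀ ≤ N →
      ∑ i ∈ excPat φ b R ε J N, 1 / (i : ℝ) ≤ C) := by
  constructor
  · rintro e ⟨i₀, hi₀, hg⟩ R ε hε
    exact Pool.Agent.N675.FM.mob_cor φ b hφ e ⟨i₀, hi₀, by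
      rcases hg with h1 | ⟨h1, i, hi, h2⟩
      · exact Or.inl h1
      · refine Or.inr ⟨h1, i, hi, ?_⟩
        rcases h2 with ⟨s, s', h3⟩ | h3
        · exact absurd ((Finset.mem_filter.1 hi).2 s s') h3
        · exact h3⟩ R ε hε
  · intro hNP h3 R ε hε
    exact Pool.Agent.N675.FM.mob_pat φ b hφ
      (fun E hE => Pool.Agent.N675.FS.good_of_three φ b hNP h3 E hE) R ε hε

end Pool.Agent.Results.MP_3e612f_nt.FixedShiftsMobius
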