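import Mathlib
import Pool.Agent.N788.QP.Mu

/-!
# Chowla sums with Möbius factors along almost all tuples of primes and rough numbers, at every scale

Products of values of the Möbius function and of its square at linear forms in `n` and in several
parameters, along almost all those values of the parameters for which given affine functions of them
are prime or have no small prime factors; the parameters may grow arbitrarily slowly. Natural
averages, which control the logarithmic ones.

From the team: the transference theorem in several parameters for arbitrary bounded functions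
(`Pool.Agent.N675.Q`, project Q of helper675), the cluster theorem (`Pool.Agent.N675.M`, project M of
helper675). From the starting files: the bound for short exponential sums with the Möbius function
(`Pool.Agent.TH823.MRS`, the theorem of Matomäki, Radziwiłł and Tao). From Mathlib:
`ArithmeticFunction.moebius`, the Möbius function; `ArithmeticFunction.vonMangoldt`: the von Mangoldt
function; `Fintype.piFinset S`: the families `d` with `d j ∈ S j` for all `j`; `m.natAbs`: the
absolute value of the integer `m`.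
-/

open Finset

namespace Pool.Agent.Results.MP_3e612f_nt.MobiusPrimeTuples

/-- The value of the Möbius function at the absolute value of `m`, and `0` for `m = 0`. -/
def mu (m : ℤ) : ℤ := ArithmeticFunction.moebius m.natAbs

open Classical in
/-- The weight of the integer `m`: the von Mangoldt function of `|m|`, plus `log D` if no prime
`p ≤ D ^ δ` divides `m`. -/
noncomputable def weight (δ : ℝ) (D : ℕ) (m : ℤ) : ℝ :=
  (if ∀ p : ℕ, p.Prime → (p : ℝ) ≤ (D : ℝ) ^ δ → ¬ (p : ℤ) ∣ m then Real.log D else 0)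
    + ArithmeticFunction.vonMangoldt m.natAbs

/-- No two of the affine functions `∑ u, l j u * z u + c j` are proportional. -/
def NonProp {r t : ℕ} (l : Fin t → Fin r → ℤ) (c : Fin t → ℤ) : Prop :=
  ∀ j j', j ≠ j' → (∃ u u', l j u * l j' u' ≠ l j' u * l j u') ∨ ∃ u, l j u * c j' ≠ l j' u * c j

/-- The sum of `G y` over the points `y` with `1 ≤ y g u ≤ D g`, weighted by the product of the
weights of the values at `y` of the affine functions `∑ u, l g j u * y g u + c g j`. -/
noncomputable def weighted {s r : ℕ} (t : Fin s → ℕ) (l : ∀ g, Fin (t g) → Fin r → ℤ)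
    (c : ∀ g, Fin (t g) → ℤ) (δ : ℝ) (D : Fin s → ℕ) (G : (Fin s → Fin r → ℤ) → ℝ) : ℝ :=
  ∑ y ∈ Fintype.piFinset (fun g => Fintype.piFinset fun _ => Icc (1 : ℤ) (D g)),
    (∏ g, ∏ j, weight δ (D g) (∑ u, l g j u * y g u + c g j)) * G y

/-- The sum over `1 ≤ n ≤ x` of `∏ i, mu (a i n + ∑ g, ∑ u, L i g u y g u) ^ (e i)`. -/
noncomputable def corr {s r k : ℕ} (a : Fin k → ℤ) (L : Fin k → Fin s → Fin r → ℤ) (e : Fin k → ℕ) (x : ℕ)
    (y : Fin s → Fin r → ℤ) : ℤ :=
  ∑ n ∈ Icc (1 : ℤ) x, ∏ i, mu (a i * n + ∑ g, ∑ u, L i g u * y g u) ^ (e i)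

/-- The number of the `1 ≤ n ≤ x` for which the values of `mu` at the forms are the `v i`. -/
noncomputable def count {s r k : ℕ} (a : Fin k → ℤ) (L : Fin k → Fin s → Fin r → ℤ) (v : Fin k → ℤ) (x : ℕ)
    (y : Fin s → Fin r → ℤ) : ℕ :=
  ((Icc (1 : ℤ) x).filter
    (fun n => ∀ i, mu (a i * n + ∑ g, ∑ u, L i g u * y g u) = v i)).card

/-- The number of the `1 ≤ n ≤ x` for which the values of `mu ^ 2` at the forms are the
`(v i) ^ 2`: certain values are squarefree and the others are not. -/
noncomputable def countSq {s r k : ℕ} (a : Fin k → ℤ) (L : Fin k → Fin s → Fin r → ℤ) (v : Fin k → ℤ) (x : ℕ)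
    (y : Fin s → Fin r → ℤ) : ℕ :=
  ((Icc (1 : ℤ) x).filter
    (fun n => ∀ i, mu (a i * n + ∑ g, ∑ u, L i g u * y g u) ^ 2 = v i ^ 2)).card

/-- The cluster of the form `i₀` in the set `E` of forms: the forms of `E` whose vector of
coefficients at `n` and at the parameters of the long blocks `g ∈ lg` is proportional to the one of
the form `i₀`. -/
def cluster {s r k : ℕ} (a : Fin k → ℤ) (L : Fin k → Fin s → Fin r → ℤ) (lg : Finset (Fin s))
    (E : Finset (Fin k)) (i₀ : Fin k) : Finset (Fin k) :=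
  E.filter fun i => ∀ g ∈ lg, ∀ u, a i * L i₀ g u = a i₀ * L i g u

/-- One of the clusters of `E` has an odd number of forms, or it contains a form which is not a
combination of the other ones: there is a direction `(w, v)` in which it varies and the other ones
do not. -/
def Good {s r k : ℕ} (a : Fin k → ℤ) (L : Fin k → Fin s → Fin r → ℤ) (lg : Finset (Fin s))
    (E : Finset (Fin k)) : Prop :=
  ∃ i₀ ∈ E, Odd (cluster a L lg E i₀).card ∨
    ∃ i₁ ∈ cluster a L lg E i₀, ∃ (w : ℤ) (v : Fin s → Fin r → ℤ),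
      a i₁ * w + ∑ g, ∑ u, L i₁ g u * v g u ≠ 0 ∧
      ∀ i ∈ cluster a L lg E i₀, i ≠ i₁ → a i * w + ∑ g, ∑ u, L i g u * v g u = 0

/-- long blocks as a boolean function -/
def lgb {s : ℕ} (lg : Finset (Fin s)) (g : Fin s) : Bool := decide (g ∈ lg)

lemma cls_inter {s r k : ℕ} (a : Fin k → ℤ) (L : Fin k → Fin s → Fin r → ℤ)
    (lg : Finset (Fin s)) (E : Finset (Fin k)) (i₀ : Fin k) :
    Pool.Agent.N675.M.cls a (Pool.Agent.N788.QP.fl L)
      (fun q : Fin s × Fin r => lgb lg q.1) i₀ ∩ E = cluster a L lg E i₀ := by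
  ext i
  rw [Finset.mem_inter, Pool.Agent.N675.M.mem_cls]
  unfold cluster
  rw [Finset.mem_filter]
  constructor
  · rintro ⟨h, hE⟩
    exact ⟨hE, fun g hg u => h (g, u) (by simpa [lgb] using hg)⟩
  · rintro ⟨hE, h⟩
    exact ⟨fun q hq => h q.1 (by simpa [lgb] using hq) q.2, hE⟩

lemma good_iff {s r k : ℕ} (a : Fin k → ℤ) (L : Fin k → Fin s → Fin r → ℤ)
    (lg : Finset (Fin s)) (E : Finset (Fin k)) (h : Good a L lg E) :
    Pool.Agent.N788.QP.GoodE a (Pool.Agent.N788.QP.fl L)
      (fun q : Fin s × Fin r => lgb lg q.1) E := by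
  have hv : ∀ (v : Fin s → Fin r → ℤ) (i : Fin k),
      ∑ q : Fin s × Fin r, Pool.Agent.N788.QP.fl L i q * v q.1 q.2
      = ∑ g, ∑ u, L i g u * v g u := fun v i => by
    unfold Pool.Agent.N788.QP.fl
    rw [Fintype.sum_prod_type]
  obtain ⟨i₀, hi₀, hodd | ⟨i₁, hi₁, w, v, hV1, hV0⟩⟩ := h
  · exact ⟨i₀, hi₀, Or.inl (by rw [cls_inter]; exact hodd)⟩
  · refine ⟨i₀, hi₀, Or.inr ⟨i₁, by rw [cls_inter]; exact hi₁, w, fun q => v q.1 q.2, ?_,
      fun i hi hne => ?_⟩⟩
    · show a i₁ * w + ∑ q : Fin s × Fin r, Pool.Agent.N788.QP.fl L i₁ q * v q.1 q.2 ≠ 0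
      rw [hv]
      exact hV1
    · show a i * w + ∑ q : Fin s × Fin r, Pool.Agent.N788.QP.fl L i q * v q.1 q.2 = 0
      rw [hv]
      rw [cls_inter] at hi
      exact hV0 i hi hne

lemma corr_norm {s r k : ℕ} (a : Fin k → ℤ) (L : Fin k → Fin s → Fin r → ℤ) (e : Fin k → ℕ)
    (x : ℕ) (y : Fin s → Fin r → ℤ) :
    |(corr a L e x y : ℝ)| = ‖Pool.Agent.N788.QP.smw a L e x y‖ := by
  have h1 : Pool.Agent.N788.QP.smw a L e x y = (((corr a L e x y : ℤ) : ℝ) : ℂ) := by
    unfold Pool.Agent.N788.QP.smw corr mu Pool.Agent.N788.MuDil2.mu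
    push_cast
    rfl
  rw [h1, Complex.norm_real, Real.norm_eq_abs]

/-- Let `a i n + ∑ g, ∑ u, L i g u * y g u`, `i < k`, be integer linear forms in `n` and in the
parameters `y g u` (`s` blocks of `r` parameters), `a i ≠ 0`; the blocks `g ∈ lg` are called long.
For every block let `∑ u, l g j u * z u + c g j`, `j < t g`, be at least one affine function of the
parameters of the block, not constant and no two proportional. For all `R`, `δ > 0` and `ε > 0`
there is `K` such that for all `x ≥ K` and all `D g` with `K ≤ D g ≤ R x`, and `x ≤ R (D g)` if `g`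
is long:
(1) if the exponents `e i` are at most `2` and the set of the forms with exponent `1` is good, the
weighted sum of the absolute values of the correlation sums is at most `ε x ∏ (D g) ^ r`;
(2) if every nonempty set of forms is good, the same bound holds for the difference between
`2 ^ m` times the number of the `n ≤ x` with any given pattern `v` of values in `{-1, 0, 1}`, `m` of
them nonzero, and the number of the `n ≤ x` with the pattern of squares. -/
theorem result : ∀ (k s r : ℕ) (t : Fin s → ℕ) (a : Fin k → ℤ) (L : Fin k → Fin s → Fin r → ℤ)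
    (l : ∀ g, Fin (t g) → Fin r → ℤ) (c : ∀ g, Fin (t g) → ℤ) (lg : Finset (Fin s)),
    (∀ i, a i ≠ 0) → (∀ g, 0 < t g) → (∀ g j, l g j ≠ 0) → (∀ g, NonProp (l g) (c g)) →
    ∀ (R : ℕ) (δ ε : ℝ), 0 < δ → 0 < ε →
    (∀ e : Fin k → ℕ, (∀ i, e i ≤ 2) → Good a L lg (univ.filter fun i => e i = 1) →
      ∃ K : ℕ, ∀ (D : Fin s → ℕ) (x : ℕ),
        K ≤ x → (∀ g, K ≤ D g) → (∀ g, D g ≤ R * x) → (∀ g ∈ lg, x ≤ R * D g) →
        weighted t l c δ D (fun y => |(corr a L e x y : ℝ)|) ≤ ε * (x * ∏ g, (D g : ℝ) ^ r)) ∧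
    ((∀ E : Finset (Fin k), E.Nonempty → Good a L lg E) →
      ∃ K : ℕ, ∀ (D : Fin s → ℕ) (x : ℕ),
        K ≤ x → (∀ g, K ≤ D g) → (∀ g, D g ≤ R * x) → (∀ g ∈ lg, x ≤ R * D g) →
        ∀ v : Fin k → ℤ, (∀ i, v i = 0 ∨ v i = 1 ∨ v i = -1) →
        weighted t l c δ D (fun y => |(2 : ℝ) ^ (univ.filter (fun i => v i ≠ 0)).card *
          count a L v x y - countSq a L v x y|) ≤ ε * (x * ∏ g, (D g : ℝ) ^ r)) := by
  intro k s r t a L l c lg ha _ hl hNP R δ ε hδ hε
  refine ⟨fun e he hg => ?_, fun hg => ?_⟩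
  · obtain ⟨K, hK⟩ := Pool.Agent.N788.QP.mu_sum Pool.Agent.N675.Q.blk_all t a L l c ha hl hNP
      (lgb lg) e he (good_iff a L lg _ hg) R δ ε hδ hε
    refine ⟨K, fun D x hx hD hDx hlg => ?_⟩
    refine le_trans (le_of_eq ?_) (hK D x hx hD hDx (fun g hg => hlg g (by simpa [lgb] using hg)))
    unfold weighted
    refine Finset.sum_congr rfl fun y _ => ?_
    beta_reduce
    rw [corr_norm]
    rfl
  · obtain ⟨K, hK⟩ := Pool.Agent.N788.QP.mu_pat Pool.Agent.N675.Q.blk_all t a L l c ha hl hNP
      (lgb lg) (fun E hE => good_iff a L lg E (hg E hE)) R δ ε hδ hε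
    refine ⟨K, fun D x hx hD hDx hlg v hv => ?_⟩
    exact hK D x hx hD hDx (fun g hg => hlg g (by simpa [lgb] using hg)) v hv

end Pool.Agent.Results.MP_3e612f_nt.MobiusPrimeTuples
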