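import Mathlib
import Pool.Agent.N318.LS.E

/-!
# The logarithmically averaged Sarnak conjecture and its short interval form after random sign changes at the primes
(helper318)

Let `e p` be independent random signs, not necessarily fair, and `g` any function bounded by `1`, for instance the Möbius
function. Almost surely the function `f(n) = g(n) ∏ e_p ^ v_p(n)` is orthogonal, in logarithmic mean, to all systems of zero
topological entropy at the same time, uniformly in the point, and even in short intervals when the point may depend on the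
interval.
-/

set_option autoImplicit false

namespace Pool.Agent.Results.MP_3e612f_nt.RandomPrimeSigns

open Finset MeasureTheory ProbabilityTheory Filter

/-- `g` with the sign changes `s p` at the primes: `n = ∏ p ^ k` goes to `g n * ∏ (s p) ^ k` -/
noncomputable def change (g : ℕ → ℂ) (s : ℕ → ℝ) (n : ℕ) : ℂ :=
  g n * ((n.factorization.prod (fun p k => s p ^ k) : ℝ) : ℂ)

/-- the sum over the primes `p ≤ X` of `(1 - |E e p|) / p`; here `1 - |E e p|` is twice the minimum of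
the probabilities of `e p = 1` and `e p = -1` -/
noncomputable def randomness {Ω : Type} [MeasurableSpace Ω] (P : Measure Ω) (e : ℕ → Ω → ℝ)
    (X : ℕ) : ℝ :=
  ∑ p ∈ (Icc 1 X).filter Nat.Prime, (1 - |∫ ω, e p ω ∂P|) / p

/-- For each `δ > 0` and all large `H` the sequences in `𝒜` are covered by at most `exp(δ H)` sequences bounded by `1`, up to
the error `δ H` in `ℓ¹[1, H]`. -/
def Subexponential (𝒜 : Set (ℕ → ℂ)) : Prop := ∀ δ : ℝ, 0 < δ → ∃ H₀ : ℕ, ∀ H : ℕ, H₀ ≤ H → ∃ W : Finset (ℕ → ℂ),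
  (W.card : ℝ) ≤ Real.exp (δ * H) ∧ (∀ w ∈ W, ∀ h, ‖w h‖ ≤ 1) ∧
    ∀ a ∈ 𝒜, ∃ w ∈ W, ∑ h ∈ Icc 1 H, ‖a h - w h‖ ≤ δ * H

/-- Let `e p` be independent signs with `∑_b exp(-R(2^(2^b))) < ∞`, `R(X) = ∑_{p ≤ X} (1 - |E e p|)/p`, and let `g` be any
function bounded by `1`. Almost surely, for `f(n) = g(n) ∏ e_p^{v_p(n)}`: (1) for all compact systems `(X, T)` of zero
topological entropy, all `F ∈ C(X)` and `ε > 0`, for all large `N` and all points `x`,
`|∑_{n ≤ N} F(T^n x) f(n)/n| ≤ ε log N`; (2) for all large `H`, for all large `N` and all sequences `x_n` of points,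
`∑_{n ≤ N} |∑_{h ≤ H} F(T^h x_n) f(n + h)|/n ≤ ε H log N`; (3) the same for the sequences of any class with subexponential
covering numbers in place of the `F(T^h x)`. -/
theorem result {Ω : Type} [MeasurableSpace Ω] (P : Measure Ω) [IsProbabilityMeasure P]
    (e : ℕ → Ω → ℝ) (hm : ∀ p, Measurable (e p)) (he : ∀ p ω, e p ω = 1 ∨ e p ω = -1)
    (hind : iIndepFun e P)
    (hS : Summable fun b : ℕ => Real.exp (- randomness P e (2 ^ (2 ^ b))))
    (g : ℕ → ℂ) (hg : ∀ n, ‖g n‖ ≤ 1) :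
    ∀ᵐ ω ∂P,
      (∀ (X : Type) [UniformSpace X] [CompactSpace X] (T : X → X), Continuous T →
        Dynamics.coverEntropy T Set.univ = 0 → ∀ F : X → ℂ, Continuous F → ∀ ε : ℝ, 0 < ε →
        (∀ᶠ N : ℕ in atTop, ∀ x : X,
          ‖∑ n ∈ Icc 1 N, F (T^[n] x) * change g (fun p => e p ω) n / (n : ℂ)‖ ≤ ε * Real.log N) ∧
        (∃ H₀ : ℕ, ∀ H : ℕ, H₀ ≤ H → ∀ᶠ N : ℕ in atTop, ∀ x : ℕ → X,
          ∑ n ∈ Icc 1 N, ‖∑ h ∈ Icc 1 H, F (T^[h] (x n)) * change g (fun p => e p ω) (n + h)‖ / n ≤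
            ε * H * Real.log N)) ∧
      (∀ 𝒜 : Set (ℕ → ℂ), Subexponential 𝒜 → ∀ ε : ℝ, 0 < ε →
        ∃ H₀ : ℕ, ∀ H : ℕ, H₀ ≤ H → ∀ᶠ N : ℕ in atTop, ∀ a : ℕ → ℕ → ℂ, (∀ n, a n ∈ 𝒜) →
          ∑ n ∈ Icc 1 N, ‖∑ h ∈ Icc 1 H, a n h * change g (fun p => e p ω) (n + h)‖ / n ≤ ε * H * Real.log N) := by
  have h1 := Pool.Agent.N318.LS.ae_MG (P := P) hm he hind hS (g := fun n => (g n).re)
    (fun n => (Complex.abs_re_le_norm _).trans (hg n))
  have h2 := Pool.Agent.N318.LS.ae_MG (P := P) hm he hind hS (g := fun n => (g n).im)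
    (fun n => (Complex.abs_im_le_norm _).trans (hg n))
  filter_upwards [h1, h2] with ω hω1 hω2
  have hf : ∀ n, ‖change g (fun p => e p ω) n‖ ≤ 1 := by
    intro n
    unfold change
    rw [norm_mul, Complex.norm_real, Real.norm_eq_abs]
    have := Pool.Agent.W136.RF.cm_abs (e := fun p => e p ω) (fun p => he p ω) n
    unfold Pool.Agent.W136.RF.cm at this
    rw [this, mul_one]
    exact hg n
  have hr : (fun n => (change g (fun p => e p ω) n).re) =
      fun n => (g n).re * Pool.Agent.W136.RF.cm (fun p => e p ω) n := by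
    funext n
    unfold change
    rw [Complex.re_mul_ofReal]
    rfl
  have hi : (fun n => (change g (fun p => e p ω) n).im) =
      fun n => (g n).im * Pool.Agent.W136.RF.cm (fun p => e p ω) n := by
    funext n
    unfold change
    rw [Complex.im_mul_ofReal]
    rfl
  refine ⟨?_, ?_⟩
  · intro X _ _ T _ h0 F hF ε hε
    obtain ⟨h3, h4⟩ := Pool.Agent.N318.LS.systems hf (hr ▸ hω1) (hi ▸ hω2) h0 hF hε
    exact ⟨h4, h3⟩
  · intro 𝒜 h𝒜 ε hε
    obtain ⟨H₀, hH₀⟩ := Pool.Agent.N318.LS.short hf (hr ▸ hω1) (hi ▸ hω2) (𝒜 := 𝒜) h𝒜 hε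
    refine ⟨H₀, fun H hH => ?_⟩
    obtain ⟨B, hB, _, hBs⟩ := hH₀ H hH
    filter_upwards [hBs] with N hN a ha
    refine le_trans (sum_le_sum fun n _ => ?_) hN
    exact div_le_div_of_nonneg_right (hB n _ (ha n)) (Nat.cast_nonneg _)

end Pool.Agent.Results.MP_3e612f_nt.RandomPrimeSigns
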