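import Pool.Agent.N625.GW.E

/-!
# Correlations of the Liouville function with shifts whose digits label walks in infinite graphs

The logarithmically averaged Sarnak conjecture is equivalent to the logarithmically averaged Chowla conjecture (Tao).
Here are bounds for the correlations of the Chowla conjecture, and for their products with arbitrary bounded weights
`θ l n` (for example the observables `F (T ^ n x)` of dynamical systems, of any entropy), for almost all the vectors of
shifts from some very thin sets.

All the shifts run through integers whose digits are the labels of the walks between two vertices of a graph, for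
example of the Cayley graph of a group: then these are the integers whose digits spell a given element of the group
(for a free group one obtains the two-sided Dyck languages). Such a set can contain as few as `N ^ ε` integers below
`N`, and in general it is not automatic.

Method (`Pool/Agent/N625/GW`, helper625): the exponential sum over the walks is dominated by the iterates of the
adjacency operator of the graph, whose square is diminished on the diagonal at the places where the frequency has a
digit which is not extremal (the two loops `x → z → x` and `x → z' → x` cancel each other partially); the norms of these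
operators on the cyclic space of a vertex are controlled by the number of the closed walks, by the Cauchy-Schwarz
inequality alone. From the starting files: the passage from such exponential sums to correlations
(`Pool.Agent.W93.AU`, `Pool.Agent.R459.LawNear`) and Davenport's theorem (`Pool.Agent.H807R2.Dav`).
-/

set_option autoImplicit false

namespace Pool.Agent.Results.MP_3e612f_nt.WalkTuples

open Finset

/-- The digits `a < b` act on the set `X` of the vertices: an edge with the label `a` leads from `x` to `y` if
`δ x a = some y` (at most one edge with the label `a` starts at `x`). The number of the edges from `x` to `y` equals the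
number of the edges from `y` to `x`, and at least two edges start at every vertex. The graph may be infinite. -/
structure Graph {X : Type} (b : ℕ) (δ : X → ℕ → Option X) : Prop where
  symm : ∀ x y : X, {a : ℕ | a < b ∧ δ x a = some y}.ncard = {a : ℕ | a < b ∧ δ y a = some x}.ncard
  two : ∀ x : X, ∃ a a' : ℕ, a < a' ∧ a' < b ∧ (δ x a).isSome ∧ (δ x a').isSome

open Classical in
/-- The integers `v < b ^ k` whose `k` digits in base `b`, from the most significant to the least significant one (the
digit number `i`, `0 ≤ i < k`, from the left is `v / b ^ (k - 1 - i) % b`), are the labels of a walk from `x` to `y`. -/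
noncomputable def walks {X : Type} (b : ℕ) (δ : X → ℕ → Option X) (k : ℕ) (x y : X) : Finset ℕ :=
  (range (b ^ k)).filter fun v =>
    ((List.range k).map fun i => v / b ^ (k - 1 - i) % b).foldl (fun s a => s.bind fun z => δ z a) (some x) = some y

/-- The Liouville function on the integers, `0` at the integers `m ≤ 0`. -/
def lam (m : ℤ) : ℤ := if 1 ≤ m then (-1) ^ ArithmeticFunction.cardFactors m.toNat else 0

/-- For all the vectors `h'` of integers with `|h' i - h i| ≤ k ^ W`, all nonempty sets `I` of indices, all `l`, and all
`x` with `a i * x ≤ B N` for `i ∈ I`: `|∑ n ≤ x, θ l n * ∏ i ∈ I, λ (a i * n + h' i)| ≤ N / k ^ U`. -/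
def Chowla (B U W N k : ℕ) {s L : ℕ} (a : Fin s → ℕ) (θ : Fin L → ℕ → ℂ) (h : Fin s → ℤ) : Prop :=
  ∀ h' : Fin s → ℤ, (∀ i, |h' i - h i| ≤ (k : ℤ) ^ W) → ∀ I : Finset (Fin s), I.Nonempty → ∀ l, ∀ x : ℕ,
    (∀ i ∈ I, a i * x ≤ B * N) → ‖∑ n ∈ Icc 1 x, θ l n * ∏ i ∈ I, (lam (a i * n + h' i) : ℂ)‖ ≤ N / (k : ℝ) ^ U

open Classical in
/-- Let `δ i`, for `i < s`, be graphs whose edges are labelled with the digits in base `b`, let `x i` be a vertex, and let
`ρ i > 0` be such that there are at most `ρ i ^ (2 n)` closed walks of the length `2 n` at `x i`, for all `n`. Let `D`,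
`κ i ≠ 0`, `B`, `T`, `W` and `U` be fixed. Let `k` be large, let `y i` be vertices such that the number of the walks of
the length `k` from `x i` to `y i` is at least `ρ i ^ k / k ^ D`, let `c i` be integers with `|c i| ≤ B b ^ k`, let
`a i ≥ 1` be arbitrary, and let `θ l` be at most `k ^ T` arbitrary functions bounded by `1` (for example products of
further values of the Liouville function). Then all the vectors `v` such that the `k` digits of `v i` are the labels of a
walk from `x i` to `y i`, with the exception of a proportion of at most `1 / k ^ U` of them, have the following property: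
for all the vectors `h` of integers with `|h i - (c i + κ i v i)| ≤ k ^ W` and all nonempty sets `I` of indices
`|∑ n ≤ x, θ l n * ∏ i ∈ I, λ (a i * n + h i)| ≤ b ^ k / k ^ U` for all `l` and all `x ≤ B b ^ k / max (a i, i ∈ I)`.

(For a group of polynomial growth, a free group, or any group with the property of rapid decay, there are at least
`ρ ^ k / k ^ D` closed walks of every even length `k` in the Cayley graph, where `ρ` is its spectral radius.) -/
theorem result (s b : ℕ) (X : Fin s → Type) (δ : ∀ i, X i → ℕ → Option (X i)) (hG : ∀ i, Graph b (δ i)) (x : ∀ i, X i)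
    (ρ : Fin s → ℝ) (hρ : ∀ i, 0 < ρ i) (hR : ∀ i, ∀ n : ℕ, ((walks b (δ i) (2 * n) (x i) (x i)).card : ℝ) ≤ ρ i ^ (2 * n))
    (D : ℕ) (κ : Fin s → ℤ) (hκ : ∀ i, κ i ≠ 0) (B T W U : ℕ) :
    ∃ k₀ : ℕ, ∀ k : ℕ, k₀ ≤ k → ∀ y : ∀ i, X i, (∀ i, ρ i ^ k / (k : ℝ) ^ D ≤ (walks b (δ i) k (x i) (y i)).card) →
      ∀ c : Fin s → ℤ, (∀ i, |c i| ≤ B * (b : ℤ) ^ k) →
      ∀ a : Fin s → ℕ, (∀ i, 1 ≤ a i) → ∀ L : ℕ, (L : ℝ) ≤ (k : ℝ) ^ T → ∀ θ : Fin L → ℕ → ℂ, (∀ l n, ‖θ l n‖ ≤ 1) →
      (((Fintype.piFinset fun i => walks b (δ i) k (x i) (y i)).filter fun v =>
        ¬ Chowla B U W (b ^ k) k a θ (fun i => c i + κ i * (v i : ℕ))).card : ℝ) ≤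
        (Fintype.piFinset fun i => walks b (δ i) k (x i) (y i)).card / (k : ℝ) ^ U := by
  obtain ⟨k₀, h0⟩ := Pool.Agent.N625.GW.w_chowla s b X δ (fun i => ⟨(hG i).symm, (hG i).two⟩) x ρ hρ hR D κ hκ B T W U
  refine ⟨k₀ + 1, fun k hk y hy c hc a ha L hL θ hθ => ?_⟩
  have hk1 : (0 : ℝ) < (k : ℝ) ^ D := by
    have : (0 : ℝ) < k := by exact_mod_cast (by omega : 0 < k)
    positivity
  refine le_trans (le_of_eq ?_) (h0 k (by omega) y (fun i => by
    have := hy i
    rw [div_le_iff₀ hk1, mul_comm] at this
    exact this) c hc L hL a θ ha hθ)
  congr 2

end Pool.Agent.Results.MP_3e612f_nt.WalkTuples
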